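import Pool.Agent.H.MP_e9bccb.K

set_option autoImplicit false

namespace Pool.Agent.Results.MP_e02861_gt.Image

def LindelofSigma (Z : Type) [TopologicalSpace Z] : Prop :=
  ∃ (W M : Type) (_ : TopologicalSpace W) (_ : TopologicalSpace M), T35Space W ∧
    TopologicalSpace.MetrizableSpace M ∧ TopologicalSpace.SeparableSpace M ∧
      ∃ (p : W → M) (q : W → Z), IsProperMap p ∧ p.Surjective ∧ Continuous q ∧ q.Surjective

def Gulko (K : Type) [TopologicalSpace K] : Prop :=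
  CompactSpace K ∧ T2Space K ∧ LindelofSigma {g : K → ℝ // Continuous g}

def Split (X : Type) [TopologicalSpace X] : Prop :=
  ∀ A : Set X, ∃ (Y : Type) (_ : TopologicalSpace Y), Gulko Y ∧
    ∃ f : X → Y, Continuous f ∧ f ⁻¹' (f '' A) = A

theorem result (X Z : Type) [TopologicalSpace X] [CompactSpace X] [T2Space X]
    [TopologicalSpace Z] [T2Space Z] (g : X → Z) (hg : Continuous g) (hs : g.Surjective)
    (h : Split X) : Split Z := by
  obtain ⟨Γ, e, h1, h2, h3⟩ := H.MP_e9bccb.splG (X := X) fun A => by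
    obtain ⟨Y, _, ⟨c, t, k⟩, hf⟩ := h A
    exact ⟨Y, _, c, t, H.MP_e9bccb.gu.2 (H.MP_e9bccb.PM.ls k), hf⟩
  exact fun A => ⟨Z, _, ⟨⟨hs.range_eq ▸ isCompact_range hg⟩, inferInstance,
    (H.MP_e9bccb.gu.1 ((H.MP_e9bccb.skG h1 h2 h3).img hg hs)).pm⟩, id, continuous_id, by simp⟩

end Pool.Agent.Results.MP_e02861_gt.Image
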